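import Pool.Agent.Q161.ESG.Stm5
import Pool.Agent.Q68.EA.K90

/-!
# Project ESG (helper161), job KDJ: every cocycle has Kummer data
-/

set_option autoImplicit false

namespace Pool.Agent.Q176.ESG

open Polynomial NumberField

open Pool.Agent.Y723.HJ (CR OddM HF nm cl val del)
open Pool.Agent.Q51.EL (Setup)
open Pool.Agent.Q161.ESM
open Pool.Agent.Q161.ESG

/-- `D` times a zero of `h` is a zero of the twist -/
lemma mem_roots_twist (H : HP) {L : Type} [Field L] [NumberField L] {θ : L} (h : Setup H.pol L θ)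
    (D : ℤ) (E : Type) [Field E] [CharZero E] (e : L →+* E) :
    (D : E) * e θ ∈ (pol (H.twist D) E).roots := by
  have hm : (pol (H.twist D) E).Monic := (instOddM (H.twist D) E).monic
  rw [mem_roots hm.ne_zero, IsRoot.def]
  have h1 : aeval (e θ) H.pol = 0 := by
    have h2 := congrArg e h.root
    rw [map_zero] at h2
    rw [← h2, aeval_def, aeval_def, hom_eval₂]
    congr 1
    exact RingHom.ext_int _ _
  have h3 : aeval ((D : E) * e θ) (H.pol.scaleRoots D) = 0 := by
    have := scaleRoots_eval₂_eq_zero (Int.castRingHom E) (p := H.pol) (r := e θ) (s := D) (by rw [← h1, aeval_def]; congr 1)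
    rw [aeval_def]; rw [← this]; congr 1
  show eval ((D : E) * e θ) ((H.pol.scaleRoots D).map (Int.castRingHom E)) = 0
  rw [eval_map, ← h3, aeval_def]
  congr 1

/-- JOB KDJ -/
theorem kdj (hS : S_SGP) : S_KDJ := by
  intro H L _ _ θ hθ D _ hD f hf hf2
  obtain ⟨s1, s2, -, -, -, s6⟩ := hS (H.twist D) QB
  have hr : ∀ e : L →ₐ[ℚ] QB, (D : QB) * e θ ∈ (pol (H.twist D) QB).roots :=
    fun e => mem_roots_twist H hθ D QB (e : L →+* QB)
  obtain ⟨γ, δ, h3, h4, h5⟩ := Pool.Agent.Q161.EA.k90 L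
    (fun σ e => sg (H.twist D) (f σ) ((D : QB) * e θ))
    (fun e => hf.1.comp (fun T => sg (H.twist D) T ((D : QB) * e θ)))
    (fun σ e => s1 _ (hf2 σ) _ (hr e))
    (by
      intro σ τ e
      show sg (H.twist D) (f (σ * τ)) ((D : QB) * e θ) = sg (H.twist D) (f σ) ((D : QB) * e θ) *
        sg (H.twist D) (f τ) ((D : QB) * σ.symm (e θ))
      have h7 : act (H.twist D) σ (f τ) + act (H.twist D) σ (f τ) = 0 := by
        rw [← act_add, hf2, act_zero]
      rw [hf.2, s2 _ _ (hf2 σ) h7 _ (hr e)]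
      congr 1
      have hr2 : (D : QB) * σ.symm (e θ) ∈ (pol (H.twist D) QB).roots := hr (σ.symm.toAlgHom.comp e)
      have h8 := s6 QB (σ : QB →+* QB) (f τ) (hf2 τ) _ hr2
      have h9 : (σ : QB →+* QB) ((D : QB) * σ.symm (e θ)) = (D : QB) * e θ := by
        rw [map_mul, map_intCast]
        congr 1
        exact σ.apply_symm_apply _
      rw [h9] at h8
      show sg (H.twist D) (pointMap (H.twist D) (σ : QB →+* QB) (f τ)) ((D : QB) * e θ) = _
      rw [h8]
      rcases s1 _ (hf2 τ) _ hr2 with h10 | h10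
      · rw [h10, map_one]
      · rw [h10, map_neg, map_one])
  exact ⟨γ, δ, ⟨h3, h4, h5⟩⟩

end Pool.Agent.Q176.ESG
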